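import Mathlib

/-! # A finite measure on the line whose Fourier transform is square integrable has no mass on
null sets -/

set_option autoImplicit false

open MeasureTheory Filter Topology
open scoped BigOperators ENNReal NNReal InnerProductSpace ComplexConjugate SchwartzMap FourierTransform

namespace Pool.Agent.Helper93.Cc

/-- Fourier duality -/
lemma dual (μ : Measure ℝ) [IsFiniteMeasure μ] (f : 𝓢(ℝ, ℂ)) :
    ∫ x, f x ∂μ = ∫ ξ : ℝ, (∫ x, Complex.exp (Complex.I * ((2 * Real.pi * ξ : ℝ) * x)) ∂μ) *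
      (𝓕 f) ξ := by
  have h := VectorFourier.integral_fourierIntegral_smul_eq_flip (μ := μ) (ν := (volume : Measure ℝ))
    (e := Real.fourierChar) (L := -(innerₗ ℝ)) (f := fun _ : ℝ => (1 : ℂ))
    (g := fun ξ : ℝ => (𝓕 f) ξ) Real.continuous_fourierChar (by
      simp only [LinearMap.neg_apply, innerₗ_apply_apply]
      fun_prop) (integrable_const _) (𝓕 f).integrable
  have h2 : ∀ x : ℝ, VectorFourier.fourierIntegral Real.fourierChar (volume : Measure ℝ)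
      (-(innerₗ ℝ)).flip (fun ξ : ℝ => (𝓕 f) ξ) x = f x := by
    intro x
    have h3 : f x = (𝓕⁻ (𝓕 f)) x := by rw [FourierTransform.fourierInv_fourier_eq]
    rw [h3, SchwartzMap.fourierInv_coe, Real.fourierInv_eq]
    unfold VectorFourier.fourierIntegral
    refine integral_congr_ae (Eventually.of_forall fun ξ => ?_)
    simp only [LinearMap.flip_apply, LinearMap.neg_apply, neg_neg, innerₗ_apply_apply]
    rw [real_inner_comm]
  simp only [h2, one_smul] at h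
  rw [← h]
  refine integral_congr_ae (Eventually.of_forall fun ξ => ?_)
  simp only [smul_eq_mul]
  congr 1
  unfold VectorFourier.fourierIntegral
  refine integral_congr_ae (Eventually.of_forall fun x => ?_)
  simp only [LinearMap.neg_apply, neg_neg, innerₗ_apply_apply, Circle.smul_def,
    Real.fourierChar_apply, smul_eq_mul, mul_one]
  congr 1
  simp only [RCLike.inner_apply, conj_trivial]
  push_cast
  ring

/-- Cauchy–Schwarz -/
lemma cs {α : Type*} [MeasurableSpace α] (μ : Measure α) {f g : α → ℝ≥0∞}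
    (hf : AEMeasurable f μ) (hg : AEMeasurable g μ) :
    (∫⁻ x, f x * g x ∂μ) ^ 2 ≤ (∫⁻ x, f x ^ 2 ∂μ) * ∫⁻ x, g x ^ 2 ∂μ := by
  have h := ENNReal.lintegral_mul_le_Lp_mul_Lq μ Real.HolderConjugate.two_two hf hg
  have h1 : (∫⁻ x, (f * g) x ∂μ) ^ 2 ≤
      ((∫⁻ a, f a ^ (2 : ℝ) ∂μ) ^ (1 / (2 : ℝ)) * (∫⁻ a, g a ^ (2 : ℝ) ∂μ) ^ (1 / (2 : ℝ))) ^ 2 :=
    pow_le_pow_left' h 2
  refine h1.trans (le_of_eq ?_)
  rw [mul_pow, ← ENNReal.rpow_natCast, ← ENNReal.rpow_natCast, ← ENNReal.rpow_mul,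
    ← ENNReal.rpow_mul]
  norm_num

/-- Jensen -/
lemma jen {α : Type*} [MeasurableSpace α] (μ : Measure α) [IsProbabilityMeasure μ] (f : α → ℂ) :
    ‖∫ x, f x ∂μ‖ₑ ^ 2 ≤ ∫⁻ x, ‖f x‖ₑ ^ 2 ∂μ := by
  by_cases hf : AEStronglyMeasurable f μ
  · have h1 : ‖∫ x, f x ∂μ‖ₑ ^ 2 ≤ (∫⁻ x, ‖f x‖ₑ * 1 ∂μ) ^ 2 := by
      simp only [mul_one]
      exact pow_le_pow_left' (enorm_integral_le_lintegral_enorm _) 2
    refine h1.trans ((cs μ hf.enorm aemeasurable_const).trans ?_)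
    simp
  · rw [integral_undef (fun h => hf h.1)]
    simp

/-- Plancherel -/
lemma planch (f : 𝓢(ℝ, ℂ)) : ∫⁻ ξ : ℝ, ‖(𝓕 f) ξ‖ₑ ^ 2 = ∫⁻ x : ℝ, ‖f x‖ₑ ^ 2 := by
  have key : ∀ g : 𝓢(ℝ, ℂ), ∫⁻ ξ : ℝ, ‖g ξ‖ₑ ^ 2 = ENNReal.ofReal (∫ ξ : ℝ, ‖g ξ‖ ^ 2) := by
    intro g
    rw [ofReal_integral_eq_lintegral_ofReal]
    · refine lintegral_congr fun V => ?_
      rw [ENNReal.ofReal_pow (norm_nonneg _), ofReal_norm]
    · exact (memLp_two_iff_integrable_sq_norm g.continuous.aestronglyMeasurable).1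
        (g.memLp 2 volume)
    · exact Eventually.of_forall fun _ => by positivity
  rw [key, key, SchwartzMap.integral_norm_sq_fourier]

lemma sm_phi (μ : Measure ℝ) [IsFiniteMeasure μ] :
    StronglyMeasurable fun t : ℝ => ∫ x, Complex.exp (Complex.I * ((t : ℂ) * x)) ∂μ := by
  have h : Continuous fun p : ℝ × ℝ => Complex.exp (Complex.I * ((p.1 : ℂ) * p.2)) := by fun_prop
  exact h.stronglyMeasurable.integral_prod_right (ν := μ)

/-- the bound on Schwartz functions -/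
lemma bnd (μ : Measure ℝ) [IsFiniteMeasure μ] (f : 𝓢(ℝ, ℂ)) :
    ‖∫ x, f x ∂μ‖ₑ ^ 2 ≤ (∫⁻ t : ℝ, ‖∫ x, Complex.exp (Complex.I * ((t : ℂ) * x)) ∂μ‖ₑ ^ 2) *
      ∫⁻ x : ℝ, ‖f x‖ₑ ^ 2 := by
  rw [dual]
  have hm : Measurable fun ξ : ℝ => 2 * Real.pi * ξ := by fun_prop
  have h0 : (2 * Real.pi : ℝ) ≠ 0 := by positivity
  have h1 : ∫⁻ ξ : ℝ, ‖∫ x, Complex.exp (Complex.I * ((2 * Real.pi * ξ : ℝ) * x)) ∂μ‖ₑ ^ 2 ≤
      ∫⁻ t : ℝ, ‖∫ x, Complex.exp (Complex.I * ((t : ℂ) * x)) ∂μ‖ₑ ^ 2 := by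
    have h2 := lintegral_map (μ := (volume : Measure ℝ)) (g := fun ξ : ℝ => 2 * Real.pi * ξ)
      (f := fun t : ℝ => ‖∫ x, Complex.exp (Complex.I * ((t : ℂ) * x)) ∂μ‖ₑ ^ 2)
      ((sm_phi μ).measurable.enorm.pow_const 2) hm
    rw [← h2, Real.map_volume_mul_left h0, lintegral_smul_measure]
    refine mul_le_of_le_one_left bot_le ?_
    rw [ENNReal.ofReal_le_one, abs_inv]
    refine inv_le_one_of_one_le₀ ?_
    rw [abs_of_pos (by positivity)]
    nlinarith [Real.pi_gt_three]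
  have h3 : ‖∫ ξ : ℝ, (∫ x, Complex.exp (Complex.I * ((2 * Real.pi * ξ : ℝ) * x)) ∂μ) *
      (𝓕 f) ξ‖ₑ ^ 2 ≤ (∫⁻ ξ : ℝ, ‖∫ x, Complex.exp (Complex.I * ((2 * Real.pi * ξ : ℝ) * x)) ∂μ‖ₑ *
        ‖(𝓕 f) ξ‖ₑ) ^ 2 := by
    refine pow_le_pow_left' ((enorm_integral_le_lintegral_enorm _).trans (le_of_eq ?_)) 2
    refine lintegral_congr fun ξ => ?_
    rw [enorm_mul]
  refine h3.trans ((cs volume ?_ ?_).trans ?_)
  · exact ((sm_phi μ).measurable.comp hm).enorm.aemeasurable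
  · exact (𝓕 f).continuous.measurable.enorm.aemeasurable
  · rw [planch]
    gcongr

/-- smooth cut-off functions -/
lemma cut {K O : Set ℝ} (hK : IsCompact K) (hO : IsOpen O) (h : K ⊆ O) :
    ∃ f : 𝓢(ℝ, ℂ), (∀ x ∈ K, f x = 1) ∧ (∀ x, ∃ r : ℝ, 0 ≤ r ∧ r ≤ 1 ∧ f x = r) ∧
      ∀ x, x ∉ O → f x = 0 := by
  obtain ⟨R, hR⟩ := hK.isBounded.subset_ball 0
  obtain ⟨f, h0, h1, h2⟩ := exists_contMDiffMap_zero_one_of_isClosed (n := (⊤ : ℕ∞))
    (modelWithCornersSelf ℝ ℝ)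
    (s := (O ∩ Metric.ball 0 R)ᶜ) (t := K) (hO.inter Metric.isOpen_ball).isClosed_compl hK.isClosed
    (by
      rw [Set.disjoint_compl_left_iff_subset]
      exact Set.subset_inter h hR)
  have hc : HasCompactSupport (Complex.ofRealCLM ∘ f) := by
    refine HasCompactSupport.intro (isCompact_closedBall (0 : ℝ) R) ?_
    intro x hx
    have : x ∈ (O ∩ Metric.ball 0 R)ᶜ := fun hx' => hx (Metric.ball_subset_closedBall hx'.2)
    have h3 := h0 this
    simp only [Function.comp_apply, Pi.zero_apply] at h3 ⊢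
    rw [h3]
    simp
  have hs : ContDiff ℝ ((⊤ : ℕ∞) : WithTop ℕ∞) (Complex.ofRealCLM ∘ f) :=
    Complex.ofRealCLM.contDiff.comp (contMDiff_iff_contDiff.1 f.contMDiff)
  refine ⟨hc.toSchwartzMap hs, ?_, ?_, ?_⟩
  · intro x hx
    have := h1 hx
    simp only [Pi.one_apply] at this
    simp [this]
  · intro x
    exact ⟨f x, (h2 x).1, (h2 x).2, by simp⟩
  · intro x hx
    have : x ∈ (O ∩ Metric.ball 0 R)ᶜ := fun hx' => hx hx'.1
    have h3 := h0 this
    simp only [Pi.zero_apply] at h3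
    simp [h3]

/-- compact null sets -/
lemma cpt (μ : Measure ℝ) [IsFiniteMeasure μ]
    (h : ∫⁻ t : ℝ, ‖∫ x, Complex.exp (Complex.I * ((t : ℂ) * x)) ∂μ‖ₑ ^ 2 ≠ ∞)
    {K : Set ℝ} (hK : IsCompact K) (h0 : volume K = 0) : μ K = 0 := by
  have key : ∀ ε : ℝ≥0∞, 0 < ε → μ K ^ 2 ≤
      (∫⁻ t : ℝ, ‖∫ x, Complex.exp (Complex.I * ((t : ℂ) * x)) ∂μ‖ₑ ^ 2) * ε := by
    intro ε hε
    obtain ⟨O, hKO, hO, hOε⟩ := K.exists_isOpen_lt_of_lt (μ := (volume : Measure ℝ)) ε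
      (by rw [h0]; exact hε)
    obtain ⟨f, f1, f2, f3⟩ := cut hK hO hKO
    have hi : Integrable f μ := by
      refine Integrable.of_bound (C := 1) f.continuous.aestronglyMeasurable
        (Eventually.of_forall fun x => ?_)
      obtain ⟨r, hr0, hr1, hr⟩ := f2 x
      rw [hr, Complex.norm_real, Real.norm_of_nonneg hr0]
      exact hr1
    have hre : ∀ x, f x = ((f x).re : ℂ) := by
      intro x
      obtain ⟨r, hr0, hr1, hr⟩ := f2 x
      rw [hr, Complex.ofReal_re]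
    have h5 : μ K ≤ ‖∫ x, f x ∂μ‖ₑ := by
      have e1 : ∫ x, f x ∂μ = ((∫ x, (f x).re ∂μ : ℝ) : ℂ) := by
        rw [← integral_complex_ofReal]
        exact integral_congr_ae (Eventually.of_forall hre)
      have hnn : ∀ x, 0 ≤ (f x).re := by
        intro x
        obtain ⟨r, hr0, hr1, hr⟩ := f2 x
        rw [hr, Complex.ofReal_re]
        exact hr0
      rw [e1, ← ofReal_norm, Complex.norm_real,
        Real.norm_of_nonneg (integral_nonneg hnn),
        ofReal_integral_eq_lintegral_ofReal (f := fun x => (f x).re) hi.re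
          (Eventually.of_forall hnn)]
      calc μ K = ∫⁻ x in K, 1 ∂μ := by simp
        _ ≤ ∫⁻ x in K, ENNReal.ofReal (f x).re ∂μ := by
            refine setLIntegral_mono' hK.measurableSet fun x hx => ?_
            rw [f1 x hx]
            simp
        _ ≤ _ := setLIntegral_le_lintegral _ _
    have h6 : ∫⁻ x : ℝ, ‖f x‖ₑ ^ 2 ≤ ε := by
      calc ∫⁻ x : ℝ, ‖f x‖ₑ ^ 2 ≤ ∫⁻ x : ℝ, O.indicator (fun _ => 1) x := by
            refine lintegral_mono fun x => ?_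
            by_cases hx : x ∈ O
            · rw [Set.indicator_of_mem hx]
              obtain ⟨r, hr0, hr1, hr⟩ := f2 x
              have : ‖f x‖ₑ ≤ 1 := by
                rw [hr, ← ofReal_norm, Complex.norm_real, Real.norm_of_nonneg hr0]
                exact ENNReal.ofReal_le_one.2 hr1
              exact pow_le_one' this 2
            · rw [Set.indicator_of_notMem hx, f3 x hx]
              simp
        _ = volume O := by rw [lintegral_indicator hO.measurableSet]; simp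
        _ ≤ ε := hOε.le
    calc μ K ^ 2 ≤ ‖∫ x, f x ∂μ‖ₑ ^ 2 := pow_le_pow_left' h5 2
      _ ≤ _ := bnd μ f
      _ ≤ _ := by gcongr
  have h7 : μ K ^ 2 = 0 := by
    have h8 : Tendsto (fun ε : ℝ≥0∞ =>
        (∫⁻ t : ℝ, ‖∫ x, Complex.exp (Complex.I * ((t : ℂ) * x)) ∂μ‖ₑ ^ 2) * ε) (𝓝[>] 0) (𝓝 0) := by
      have : Tendsto (fun ε : ℝ≥0∞ =>
        (∫⁻ t : ℝ, ‖∫ x, Complex.exp (Complex.I * ((t : ℂ) * x)) ∂μ‖ₑ ^ 2) * ε) (𝓝 0) (𝓝
          ((∫⁻ t : ℝ, ‖∫ x, Complex.exp (Complex.I * ((t : ℂ) * x)) ∂μ‖ₑ ^ 2) * 0)) :=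
        ENNReal.Tendsto.const_mul tendsto_id (Or.inr h)
      rw [mul_zero] at this
      exact this.mono_left nhdsWithin_le_nhds
    have h9 := ge_of_tendsto h8 (eventually_mem_nhdsWithin.mono fun ε hε => key ε hε)
    exact le_antisymm h9 bot_le
  exact pow_eq_zero_iff (two_ne_zero) |>.1 h7

/-- the measure is absolutely continuous -/
theorem acm (μ : Measure ℝ) [IsFiniteMeasure μ]
    (h : ∫⁻ t : ℝ, ‖∫ x, Complex.exp (Complex.I * ((t : ℂ) * x)) ∂μ‖ₑ ^ 2 ≠ ∞)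
    {N : Set ℝ} (h0 : volume N = 0) : μ N = 0 := by
  have h1 : volume (toMeasurable volume N) = 0 := by rw [measure_toMeasurable, h0]
  have h2 : μ (toMeasurable volume N) = 0 := by
    rw [(measurableSet_toMeasurable volume N).measure_eq_iSup_isCompact_of_ne_top
      (measure_ne_top μ _)]
    simp only [ENNReal.iSup_eq_zero]
    intro K hK hKc
    exact cpt μ h hKc (measure_mono_null hK h1)
  exact measure_mono_null (subset_toMeasurable volume N) h2

end Pool.Agent.Helper93.Cc
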