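import Pool.Agent.Helper26.Cc.Stm
import Pool.Agent.Helper93.Cc.MarA

/-! # MAR: the marginals of a correlation measure have no mass on null sets -/

set_option autoImplicit false

open MeasureTheory Filter Topology ProbabilityTheory
open scoped BigOperators ENNReal NNReal InnerProductSpace ComplexConjugate

namespace Pool.Agent.Helper93.Cc

open Pool.Agent.H5R2.NB Pool.Agent.Helper26.Nb Pool.Agent.Helper26.Cm Pool.Agent.Helper26.Dj
  Pool.Agent.Helper26.Rg Pool.Agent.Helper26.Cc

variable {d : ℕ}

/-- averaged Kato smoothness, on average over all the other sites -/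
theorem kato {c R : ℝ} (ρ : Measure ℝ) [IsProbabilityMeasure ρ] {D : ℝ≥0}
    (hD : ρ ≤ D • (volume : Measure ℝ)) (hR : ∀ᵐ κ ∂ρ, |κ| ≤ R)
    {ev : (Site d → ℝ) → UG (L2 (Site d))} (hev : ∀ V, IsGrp c V (ev V))
    {χ : (Site d → ℝ) → L2 (Site d)} (hχ : StronglyMeasurable χ) {M : ℝ} (hM : ∀ V, ‖χ V‖ ≤ M) :
    ∫⁻ t : ℝ, ‖∫ V, ⟪χ V, (ev V).U t (dl 0)⟫_ℂ ∂(Measure.infinitePi fun _ : Site d => ρ)‖ₑ ^ 2 ≤
      ENNReal.ofReal (8 * D * 1 ^ 2 * M ^ 2) := by
  set P : Measure (Site d → ℝ) := Measure.infinitePi fun _ : Site d => ρ with hP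
  set q : ℝ → ℂ := (Set.Icc (-R) R).indicator (fun _ => 1) with hq
  have hqm : Measurable q := measurable_const.indicator measurableSet_Icc
  have hq1 : ∀ κ, ‖q κ‖ ≤ 1 := by
    intro κ
    rw [hq]
    by_cases h : κ ∈ Set.Icc (-R) R
    · rw [Set.indicator_of_mem h]; simp
    · rw [Set.indicator_of_notMem h]; simp
  have hq0 : ∀ κ, R < |κ| → q κ = 0 := by
    intro κ hκ
    rw [hq]
    refine Set.indicator_of_notMem (fun h => ?_) _
    exact absurd (abs_le.2 ⟨h.1, h.2⟩) (not_le.2 hκ)
  have hqa : ∀ᵐ κ ∂ρ, q κ = 1 := by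
    filter_upwards [hR] with κ hκ
    rw [hq, Set.indicator_of_mem]
    exact ⟨(abs_le.1 hκ).1, (abs_le.1 hκ).2⟩
  -- joint measurability
  have hUm : StronglyMeasurable fun p : (Site d → ℝ) × ℝ => (ev p.1).U p.2 (dl 0) :=
    (contU hev continuous_fst continuous_snd continuous_const).stronglyMeasurable
  have hFm : StronglyMeasurable fun p : (Site d → ℝ) × ℝ => ⟪χ p.1, (ev p.1).U p.2 (dl 0)⟫_ℂ :=
    (hχ.comp_measurable measurable_fst).inner hUm
  have hup := mp_update (d := d) ρ
  set g : (Site d → ℝ) → ℝ → ℂ := fun V t => ∫ κ, q κ *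
    ⟪χ (Function.update V 0 κ), (ev (Function.update V 0 κ)).U t (dl 0)⟫_ℂ ∂ρ with hg
  have hgm : Measurable fun p : (Site d → ℝ) × ℝ => g p.1 p.2 := by
    have h1 : Measurable fun z : ((Site d → ℝ) × ℝ) × ℝ => (Function.update z.1.1 0 z.2, z.1.2) :=
      (hup.measurable.comp ((measurable_fst.comp measurable_fst).prodMk measurable_snd)).prodMk
        (measurable_snd.comp measurable_fst)
    have h3 : StronglyMeasurable fun z : ((Site d → ℝ) × ℝ) × ℝ =>
        ⟪χ (Function.update z.1.1 0 z.2), (ev (Function.update z.1.1 0 z.2)).U z.1.2 (dl 0)⟫_ℂ := by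
      have e : (fun z : ((Site d → ℝ) × ℝ) × ℝ => ⟪χ (Function.update z.1.1 0 z.2),
          (ev (Function.update z.1.1 0 z.2)).U z.1.2 (dl 0)⟫_ℂ) =
          (fun p : (Site d → ℝ) × ℝ => ⟪χ p.1, (ev p.1).U p.2 (dl 0)⟫_ℂ) ∘
            (fun z : ((Site d → ℝ) × ℝ) × ℝ => (Function.update z.1.1 0 z.2, z.1.2)) := by
        funext z
        simp only [Function.comp_apply]
      rw [e]
      exact hFm.comp_measurable h1
    have h4 : StronglyMeasurable fun z : ((Site d → ℝ) × ℝ) × ℝ => q z.2 :=
      (hqm.comp measurable_snd).stronglyMeasurable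
    have h2 : StronglyMeasurable fun z : ((Site d → ℝ) × ℝ) × ℝ => q z.2 *
        ⟪χ (Function.update z.1.1 0 z.2), (ev (Function.update z.1.1 0 z.2)).U z.1.2 (dl 0)⟫_ℂ :=
      h4.fun_mul h3
    exact (h2.integral_prod_right' (ν := ρ)).measurable
  -- the resampling
  have hres : ∀ t, ∫ V, ⟪χ V, (ev V).U t (dl 0)⟫_ℂ ∂P = ∫ V, g V t ∂P := by
    intro t
    have hFt : StronglyMeasurable fun V => ⟪χ V, (ev V).U t (dl 0)⟫_ℂ :=
      hFm.comp_measurable (measurable_id.prodMk measurable_const)
    have h1 := integral_map (μ := P.prod ρ)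
      (φ := fun p : (Site d → ℝ) × ℝ => Function.update p.1 0 p.2)
      (f := fun V => ⟪χ V, (ev V).U t (dl 0)⟫_ℂ) hup.measurable.aemeasurable
      hFt.aestronglyMeasurable
    rw [hup.map_eq] at h1
    rw [h1, integral_prod]
    · refine integral_congr_ae (Eventually.of_forall fun V => ?_)
      refine integral_congr_ae ?_
      filter_upwards [hqa] with κ hκ
      simp only [hκ, one_mul]
    · refine Integrable.of_bound (C := M) (hFt.comp_measurable hup.measurable).aestronglyMeasurable
        (Eventually.of_forall fun p => ?_)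
      refine (norm_inner_le_norm _ _).trans ?_
      rw [(ev _).norm', STAT.norm_dl, mul_one]
      exact hM _
  calc ∫⁻ t : ℝ, ‖∫ V, ⟪χ V, (ev V).U t (dl 0)⟫_ℂ ∂P‖ₑ ^ 2
      ≤ ∫⁻ t : ℝ, ∫⁻ V, ‖g V t‖ₑ ^ 2 ∂P := by
        refine lintegral_mono fun t => ?_
        rw [hres t]
        exact jen P _
    _ = ∫⁻ V, (∫⁻ t : ℝ, ‖g V t‖ₑ ^ 2) ∂P := by
        refine lintegral_lintegral_swap ?_
        exact ((hgm.comp measurable_swap).enorm.pow_const 2).aemeasurable
    _ ≤ ∫⁻ V, ENNReal.ofReal (8 * D * 1 ^ 2 * M ^ 2) ∂P := by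
        refine lintegral_mono fun V => ?_
        have h1 := ALL.a_S1 (Site d) (fun κ => ev (Function.update V 0 κ)) (dl 0)
          (t_FAM ALL.a_UN d c ev hev V) ρ D hD q 1 R hqm hq1 hq0
          (fun κ => χ (Function.update V 0 κ)) M
          (hχ.comp_measurable (by fun_prop)).aestronglyMeasurable (fun κ => hM _)
        rw [measure_univ, mul_one] at h1
        exact h1
    _ = _ := by simp

theorem mar : S_Mar := by
  intro d c R ρ hρ D hD hR ev hev X hX m hm hmm N hN
  obtain ⟨K, hK⟩ := hX.bdd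
  have hK0 : 0 ≤ K := (norm_nonneg _).trans (hK fun _ => 0)
  set P : Measure (Site d → ℝ) := Measure.infinitePi fun _ : Site d => ρ with hP
  have hU : ∀ t : ℝ, Cv fun V : Site d → ℝ => (ev V).U t := fun t => cvU (p := id) hev continuous_id t
  have hKa : ∀ V, ‖ContinuousLinearMap.adjoint (X V)‖ ≤ K := fun V => by
    rw [LinearIsometryEquiv.norm_map]; exact hK V
  constructor
  · -- first marginal
    have h2 : m (N ×ˢ Set.univ) ≤ (m.map Prod.fst) (toMeasurable volume N) := by
      rw [Measure.map_apply measurable_fst (measurableSet_toMeasurable volume N)]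
      refine measure_mono ?_
      rintro p ⟨hp, -⟩
      exact subset_toMeasurable volume N hp
    have h3 : (m.map Prod.fst) (toMeasurable volume N) = 0 := by
      refine acm _ ?_ (by rw [measure_toMeasurable, hN])
      have hb := kato (c := c) (R := R) ρ hD hR hev
        (χ := fun V => X V (ContinuousLinearMap.adjoint (X V) (dl 0)))
        (hX.sm_apply (hX.adj.sm 0)) (M := K * K) (fun V => by
          refine ((X V).le_opNorm _).trans ?_
          exact mul_le_mul (hK V) (Cv.norm_dl_le (X := fun V => ContinuousLinearMap.adjoint (X V))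
            hKa V 0) (norm_nonneg _) hK0)
      refine ne_of_lt (lt_of_le_of_lt (le_trans (le_of_eq ?_) hb) ENNReal.ofReal_lt_top)
      refine lintegral_congr fun s => ?_
      congr 1
      have e1 : ∫ x, Complex.exp (Complex.I * ((s : ℂ) * x)) ∂(m.map Prod.fst) =
          ∫ V, ⟪X V (dl 0), (ev V).U (-s) (X V (dl 0))⟫_ℂ ∂P := by
        rw [integral_map measurable_fst.aemeasurable
          (by fun_prop : Continuous fun x : ℝ => Complex.exp (Complex.I * ((s : ℂ) * x))).aestronglyMeasurable]
        have := hmm s 0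
        simp only [Complex.ofReal_zero, zero_mul, add_zero, neg_zero, (ev _).zero'] at this
        exact this
      have e2 := hX.tr ((hU (-s)).comp hX) ρ
      simp only [ContinuousLinearMap.comp_apply] at e2
      rw [e1, e2]
      have e3 : ∀ V, ⟪ContinuousLinearMap.adjoint (((ev V).U (-s)).comp (X V)) (dl 0),
          ContinuousLinearMap.adjoint (X V) (dl 0)⟫_ℂ =
          conj ⟪X V (ContinuousLinearMap.adjoint (X V) (dl 0)), (ev V).U s (dl 0)⟫_ℂ := by
        intro V
        rw [ContinuousLinearMap.adjoint_comp, adj_U, neg_neg, ContinuousLinearMap.comp_apply,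
          ContinuousLinearMap.adjoint_inner_left, inner_conj_symm]
      simp only [e3]
      rw [integral_conj, RCLike.enorm_conj]
    exact le_antisymm (h2.trans h3.le) bot_le
  · have h2 : m (Set.univ ×ˢ N) ≤ (m.map Prod.snd) (toMeasurable volume N) := by
      rw [Measure.map_apply measurable_snd (measurableSet_toMeasurable volume N)]
      refine measure_mono ?_
      rintro p ⟨-, hp⟩
      exact subset_toMeasurable volume N hp
    have h3 : (m.map Prod.snd) (toMeasurable volume N) = 0 := by
      refine acm _ ?_ (by rw [measure_toMeasurable, hN])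
      have hb := kato (c := c) (R := R) ρ hD hR hev
        (χ := fun V => ContinuousLinearMap.adjoint (X V) (X V (dl 0)))
        (hX.adj.sm_apply (hX.sm 0)) (M := K * K) (fun V => by
          refine ((ContinuousLinearMap.adjoint (X V)).le_opNorm _).trans ?_
          exact mul_le_mul (hKa V) (Cv.norm_dl_le hK V 0) (norm_nonneg _) hK0)
      refine ne_of_lt (lt_of_le_of_lt (le_trans (le_of_eq ?_) hb) ENNReal.ofReal_lt_top)
      rw [← lintegral_neg_eq_self (μ := (volume : Measure ℝ))]
      refine lintegral_congr fun t => ?_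
      congr 1
      have e1 : ∫ x, Complex.exp (Complex.I * (((-t : ℝ) : ℂ) * x)) ∂(m.map Prod.snd) =
          ∫ V, ⟪X V (dl 0), X V ((ev V).U t (dl 0))⟫_ℂ ∂P := by
        rw [integral_map measurable_snd.aemeasurable
          (by fun_prop : Continuous fun x : ℝ =>
            Complex.exp (Complex.I * (((-t : ℝ) : ℂ) * x))).aestronglyMeasurable]
        have := hmm 0 (-t)
        simp only [Complex.ofReal_zero, zero_mul, zero_add, neg_zero, neg_neg, (ev _).zero'] at this
        exact this
      rw [e1]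
      congr 1
      refine integral_congr_ae (Eventually.of_forall fun V => ?_)
      simp only
      rw [ContinuousLinearMap.adjoint_inner_left]
    exact le_antisymm (h2.trans h3.le) bot_le

end Pool.Agent.Helper93.Cc
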